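import Mathlib

namespace Pool.Agent.H.MP_86855d_nt

/-- q := m² - 15 m n + n² -/
lemma exists_squares {m n k : ℤ} (hmn : IsCoprime m n) (hn : 0 < n)
    (hk : m * n * (m ^ 2 - 15 * m * n + n ^ 2) = k ^ 2) :
    ∃ M e N : ℤ, m = M ^ 2 ∧ n = e ^ 2 ∧ m ^ 2 - 15 * m * n + n ^ 2 = N ^ 2 := by
  have hq1 : IsCoprime m (m ^ 2 - 15 * m * n + n ^ 2) := by
    have h : IsCoprime m (n ^ 2) := hmn.pow_right
    have h2 : IsCoprime m (n ^ 2 + m * (m - 15 * n)) := by
      exact (IsCoprime.add_mul_left_right_iff).2 h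
    convert h2 using 1; ring
  have hq2 : IsCoprime n (m ^ 2 - 15 * m * n + n ^ 2) := by
    have h : IsCoprime n (m ^ 2) := hmn.symm.pow_right
    have h2 : IsCoprime n (m ^ 2 + n * (n - 15 * m)) := by
      exact (IsCoprime.add_mul_left_right_iff).2 h
    convert h2 using 1; ring
  have hm0 : 0 ≤ m := by
    by_contra hm
    push Not at hm
    have h1 : 0 < m ^ 2 - 15 * m * n + n ^ 2 := by nlinarith [mul_pos (neg_pos.2 hm) hn]
    have h2 : m * n < 0 := mul_neg_of_neg_of_pos hm hn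
    have h3 : m * n * (m ^ 2 - 15 * m * n + n ^ 2) < 0 := mul_neg_of_neg_of_pos h2 h1
    nlinarith [sq_nonneg k]
  rcases hm0.eq_or_lt with hm | hm
  · subst hm
    have : IsUnit n := by
      rwa [isCoprime_zero_left] at hmn
    have hn1 : n = 1 := by
      rcases Int.isUnit_iff.1 this with h | h
      · exact h
      · omega
    subst hn1
    exact ⟨0, 1, 1, by norm_num, by norm_num, by norm_num⟩
  have hmnpos : 0 < m * n := mul_pos hm hn
  have hq0 : 0 ≤ m ^ 2 - 15 * m * n + n ^ 2 := by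
    by_contra h
    push Not at h
    have := mul_neg_of_pos_of_neg hmnpos h
    nlinarith [sq_nonneg k]
  have hc1 : IsCoprime m (n * (m ^ 2 - 15 * m * n + n ^ 2)) := hmn.mul_right hq1
  have hc2 : IsCoprime n (m * (m ^ 2 - 15 * m * n + n ^ 2)) := hmn.symm.mul_right hq2
  have hc3 : IsCoprime (m ^ 2 - 15 * m * n + n ^ 2) (m * n) := hq1.symm.mul_right hq2.symm
  obtain ⟨M, hM⟩ := Int.sq_of_isCoprime hc1 (by rw [← hk]; ring : m * (n * (m ^ 2 - 15 * m * n + n ^ 2)) = k ^ 2)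
  obtain ⟨e, he⟩ := Int.sq_of_isCoprime hc2 (by rw [← hk]; ring : n * (m * (m ^ 2 - 15 * m * n + n ^ 2)) = k ^ 2)
  obtain ⟨N, hN⟩ := Int.sq_of_isCoprime hc3 (by rw [← hk]; ring : (m ^ 2 - 15 * m * n + n ^ 2) * (m * n) = k ^ 2)
  refine ⟨M, e, N, ?_, ?_, ?_⟩
  · rcases hM with h | h
    · exact h
    · nlinarith [sq_nonneg M]
  · rcases he with h | h
    · exact h
    · nlinarith [sq_nonneg e]
  · rcases hN with h | h
    · exact h
    · nlinarith [sq_nonneg N]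

/-- general factor lemma -/
lemma sum_sq_mod {q : ℕ} (hq : q.Prime) {i : ℤ} (hi : (q : ℤ) ∣ i ^ 2 + 1) {A B k : ℤ} (hAB : IsCoprime A B)
    (h : A * B = q * k ^ 2) : ∃ γ : ℤ, ¬ (q : ℤ) ∣ γ ∧ (q : ℤ) ∣ (A + B) - γ ^ 2 := by
  have hqp : Prime (q : ℤ) := Nat.prime_iff_prime_int.1 hq
  have hq0 : (q : ℤ) ≠ 0 := by exact_mod_cast hq.ne_zero
  have hi' : ¬ (q : ℤ) ∣ i := by
    intro hd
    have h1 : (q : ℤ) ∣ i ^ 2 := dvd_pow hd (by norm_num)
    have h2 : (q : ℤ) ∣ 1 := by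
      have := dvd_sub hi h1
      simpa using this
    exact hqp.not_isUnit (isUnit_of_dvd_one h2)
  -- key: if q ∣ A then fine
  have key : ∀ A B : ℤ, IsCoprime A B → A * B = q * k ^ 2 → (q : ℤ) ∣ A →
      ∃ γ : ℤ, ¬ (q : ℤ) ∣ γ ∧ (q : ℤ) ∣ (A + B) - γ ^ 2 := by
    intro A B hAB h hA
    obtain ⟨A', rfl⟩ := hA
    have h1 : A' * B = k ^ 2 := by
      have : (q : ℤ) * (A' * B) = q * k ^ 2 := by rw [← h]; ring
      exact mul_left_cancel₀ hq0 this
    have h2 : IsCoprime B A' := (IsCoprime.of_mul_left_right hAB).symm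
    obtain ⟨b, hb⟩ := Int.sq_of_isCoprime h2 (by rw [← h1]; ring : B * A' = k ^ 2)
    have hqB : ¬ (q : ℤ) ∣ B := by
      intro hd
      have := hAB.isUnit_of_dvd' (dvd_mul_right (q : ℤ) A') hd
      exact hqp.not_isUnit this
    have hqb : ¬ (q : ℤ) ∣ b := by
      intro hd
      apply hqB
      rcases hb with hb | hb
      · rw [hb]; exact dvd_pow hd (by norm_num)
      · rw [hb]; exact (dvd_pow hd (by norm_num)).neg_right
    rcases hb with hb | hb
    · refine ⟨b, hqb, ?_⟩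
      rw [hb]
      have : (q : ℤ) * A' + b ^ 2 - b ^ 2 = q * A' := by ring
      rw [this]; exact dvd_mul_right _ _
    · refine ⟨i * b, ?_, ?_⟩
      · intro hd
        rcases hqp.dvd_or_dvd hd with h | h
        · exact hi' h
        · exact hqb h
      · rw [hb]
        have : (q : ℤ) * A' + -b ^ 2 - (i * b) ^ 2 = q * A' - (i ^ 2 + 1) * b ^ 2 := by ring
        rw [this]
        exact dvd_sub (dvd_mul_right _ _) (Dvd.dvd.mul_right hi _)
  have hdvd : (q : ℤ) ∣ A * B := by rw [h]; exact dvd_mul_right _ _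
  rcases hqp.dvd_or_dvd hdvd with hA | hB
  · exact key A B hAB h hA
  · obtain ⟨γ, h1, h2⟩ := key B A hAB.symm (by rw [mul_comm]; exact h) hB
    exact ⟨γ, h1, by rwa [add_comm] at h2⟩

lemma parity {M e N : ℤ} (hMe : IsCoprime M e) (h : M ^ 4 - 15 * M ^ 2 * e ^ 2 + e ^ 4 = N ^ 2) :
    (Odd M ∧ Even e) ∨ (Even M ∧ Odd e) := by
  rcases Int.even_or_odd M with hM | hM <;> rcases Int.even_or_odd e with he | he
  · exfalso
    have := hMe.isUnit_of_dvd' (even_iff_two_dvd.1 hM) (even_iff_two_dvd.1 he)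
    exact Int.prime_two.not_isUnit this
  · exact Or.inr ⟨hM, he⟩
  · exact Or.inl ⟨hM, he⟩
  · exfalso
    obtain ⟨a, rfl⟩ := hM
    obtain ⟨b, rfl⟩ := he
    have h4 : (N : ZMod 4) ^ 2 = (2 * (a : ZMod 4) + 1) ^ 4 - 15 * (2 * (a : ZMod 4) + 1) ^ 2 * (2 * (b : ZMod 4) + 1) ^ 2 + (2 * (b : ZMod 4) + 1) ^ 4 := by
      have := congrArg (Int.cast : ℤ → ZMod 4) h
      push_cast at this
      rw [this]
    generalize (N : ZMod 4) = x at h4
    generalize (a : ZMod 4) = y at h4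
    generalize (b : ZMod 4) = z at h4
    revert x y z
    decide

lemma factor_aux {q : ℕ} (hq : q.Prime) {i : ℤ} (hi : (q : ℤ) ∣ i ^ 2 + 1) {M e N c : ℤ} (hMe : IsCoprime M e)
    (hc : c = 1 ∨ c = -1)
    (hpar : (Odd M ∧ Even e) ∨ (Even M ∧ Odd e))
    (h : (M ^ 2 + c * e ^ 2) ^ 2 - q * M ^ 2 * e ^ 2 = N ^ 2) (hq2 : q ≠ 2) :
    ∃ γ : ℤ, ¬ (q : ℤ) ∣ γ ∧ (q : ℤ) ∣ (M ^ 2 + c * e ^ 2) - γ ^ 2 := by
  have hqp : Prime (q : ℤ) := Nat.prime_iff_prime_int.1 hq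
  set T := M ^ 2 + c * e ^ 2 with hT
  have hMe2 : Even (M * e) := by
    rcases hpar with ⟨_, h2⟩ | ⟨h2, _⟩
    · exact h2.mul_left _
    · exact h2.mul_right _
  have hTodd : Odd T := by
    rcases hc with rfl | rfl <;> rcases hpar with ⟨h1, h2⟩ | ⟨h1, h2⟩
    all_goals
      rw [hT]
      simp only [one_mul, neg_one_mul]
      first
        | exact (h1.pow).add_even ((h2.pow_of_ne_zero (by norm_num)))
        | exact (h1.pow_of_ne_zero (by norm_num)).add_odd h2.pow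
        | exact (h1.pow).add_even ((h2.pow_of_ne_zero (by norm_num)).neg)
        | exact (h1.pow_of_ne_zero (by norm_num)).add_odd h2.pow.neg
  obtain ⟨k, hk⟩ := hMe2
  have hk' : M * e = 2 * k := by rw [hk]; ring
  have hN : T ^ 2 - 4 * q * k ^ 2 = N ^ 2 := by
    rw [← h]
    have : (M * e) ^ 2 = 4 * k ^ 2 := by rw [hk']; ring
    linear_combination (q : ℤ) * this
  have hNodd : Odd N := by
    have h1 : Odd (T ^ 2 - 4 * q * k ^ 2) := by
      apply Odd.sub_even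
      · exact hTodd.pow
      · exact ⟨2 * q * k ^ 2, by ring⟩
    rw [hN] at h1
    exact (Int.odd_pow' (by norm_num)).1 h1
  obtain ⟨A, hA⟩ : Even (T - N) := hTodd.sub_odd hNodd
  obtain ⟨B, hB⟩ : Even (T + N) := hTodd.add_odd hNodd
  have hAB : A * B = q * k ^ 2 := by
    have h1 : (T - N) * (T + N) = 4 * (q * k ^ 2) := by linear_combination hN
    rw [hA, hB] at h1
    have : 4 * (A * B) = 4 * (q * k ^ 2) := by rw [← h1]; ring
    exact mul_left_cancel₀ (by norm_num) this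
  have hTAB : A + B = T := by
    have : 2 * (A + B) = 2 * T := by linear_combination -hA - hB
    exact mul_left_cancel₀ (by norm_num) this
  have hcop : IsCoprime A B := by
    rw [Int.isCoprime_iff_gcd_eq_one]
    by_contra hg
    obtain ⟨r, hr, hrg⟩ := Nat.exists_prime_and_dvd hg
    have hrp : Prime (r : ℤ) := Nat.prime_iff_prime_int.1 hr
    have hrA : (r : ℤ) ∣ A := (Int.natCast_dvd_natCast.2 hrg).trans (Int.gcd_dvd_left _ _)
    have hrB : (r : ℤ) ∣ B := (Int.natCast_dvd_natCast.2 hrg).trans (Int.gcd_dvd_right _ _)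
    have hrT : (r : ℤ) ∣ T := by rw [← hTAB]; exact dvd_add hrA hrB
    have hr2 : (r : ℤ) ^ 2 ∣ q * k ^ 2 := by rw [← hAB, pow_two]; exact mul_dvd_mul hrA hrB
    have hrk : (r : ℤ) ∣ k := by
      by_cases hrq : r = q
      · subst hrq
        have h1 : (r : ℤ) * r ∣ r * k ^ 2 := by rwa [← pow_two]
        have h2 : (r : ℤ) ∣ k ^ 2 := (mul_dvd_mul_iff_left hrp.ne_zero).1 h1
        exact hrp.dvd_of_dvd_pow h2
      · have h1 : (r : ℤ) ∣ q * k ^ 2 := (dvd_pow_self _ (by norm_num)).trans hr2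
        rcases hrp.dvd_or_dvd h1 with h2 | h2
        · exfalso
          apply hrq
          exact (Nat.prime_dvd_prime_iff_eq hr hq).1 (by exact_mod_cast h2)
        · exact hrp.dvd_of_dvd_pow h2
    have hrMe : (r : ℤ) ∣ M * e := by rw [hk']; exact Dvd.dvd.mul_left hrk _
    have hcases : (r : ℤ) ∣ M ∧ (r : ℤ) ∣ e := by
      rcases hrp.dvd_or_dvd hrMe with h1 | h1
      · refine ⟨h1, ?_⟩
        have h2 : (r : ℤ) ∣ c * e ^ 2 := by
          have := dvd_sub hrT (dvd_pow h1 (n := 2) (by norm_num))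
          rw [hT] at this
          simpa using this
        rcases hc with rfl | rfl
        · rw [one_mul] at h2; exact hrp.dvd_of_dvd_pow h2
        · rw [neg_one_mul, dvd_neg] at h2; exact hrp.dvd_of_dvd_pow h2
      · refine ⟨?_, h1⟩
        have h2 : (r : ℤ) ∣ M ^ 2 := by
          have := dvd_sub hrT (Dvd.dvd.mul_left (dvd_pow h1 (n := 2) (by norm_num)) c)
          rw [hT] at this
          simpa using this
        exact hrp.dvd_of_dvd_pow h2
    exact hrp.not_isUnit (hMe.isUnit_of_dvd' hcases.1 hcases.2)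
  obtain ⟨γ, h1, h2⟩ := sum_sq_mod hq hi hcop hAB
  exact ⟨γ, h1, by rwa [hTAB] at h2⟩

/-- Main arithmetic statement about rational points on `y² = x³ - 15x² + x`. -/
theorem arith {x y : ℚ} (h : y ^ 2 = x ^ 3 - 15 * x ^ 2 + x) :
    ∃ M e : ℤ, e ≠ 0 ∧ x = (M : ℚ) ^ 2 / (e : ℚ) ^ 2 ∧
      (∃ γ : ℤ, ¬ (13 : ℤ) ∣ γ ∧ (13 : ℤ) ∣ (M ^ 2 - e ^ 2) - γ ^ 2) ∧
      (∃ γ : ℤ, ¬ (17 : ℤ) ∣ γ ∧ (17 : ℤ) ∣ (M ^ 2 + e ^ 2) - γ ^ 2) := by
  set m : ℤ := x.num with hm
  set n : ℤ := (x.den : ℤ) with hn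
  have hnpos : 0 < n := by rw [hn]; exact_mod_cast x.den_pos
  have hcop : IsCoprime m n := by
    rw [hm, hn, Int.isCoprime_iff_gcd_eq_one]
    exact x.reduced
  have hx : x = (m : ℚ) / n := by
    rw [hm, hn]
    exact_mod_cast (Rat.num_div_den x).symm
  have hn0 : (n : ℚ) ≠ 0 := by exact_mod_cast hnpos.ne'
  have hyn : (y * n ^ 2) ^ 2 = ((m * n * (m ^ 2 - 15 * m * n + n ^ 2) : ℤ) : ℚ) := by
    have : (y * n ^ 2) ^ 2 = y ^ 2 * n ^ 4 := by ring
    rw [this, h, hx]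
    push_cast
    field_simp
  have hsq : IsSquare (m * n * (m ^ 2 - 15 * m * n + n ^ 2) : ℤ) := by
    rw [← Rat.isSquare_intCast_iff]
    exact ⟨y * n ^ 2, by rw [← hyn]; ring⟩
  obtain ⟨k, hk⟩ := hsq
  obtain ⟨M, e, N, hM, he, hN⟩ := exists_squares hcop hnpos (by rw [hk]; ring : m * n * (m ^ 2 - 15 * m * n + n ^ 2) = k ^ 2)
  have hMe : IsCoprime M e := by
    rw [hM, he] at hcop
    exact (IsCoprime.pow_iff (by norm_num) (by norm_num)).1 hcop
  have he0 : e ≠ 0 := by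
    rintro rfl
    simp at he
    omega
  have hN' : M ^ 4 - 15 * M ^ 2 * e ^ 2 + e ^ 4 = N ^ 2 := by
    rw [← hN, hM, he]; ring
  have hpar := parity hMe hN'
  refine ⟨M, e, he0, ?_, ?_, ?_⟩
  · rw [hx, hM, he]; push_cast; rfl
  · have := factor_aux (q := 13) (by norm_num) (i := 5) (by norm_num) (c := -1) (N := N) hMe (Or.inr rfl) hpar
      (by rw [← hN']; push_cast; ring) (by norm_num)
    obtain ⟨γ, h1, h2⟩ := this
    refine ⟨γ, by exact_mod_cast h1, ?_⟩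
    have h3 : M ^ 2 + -1 * e ^ 2 - γ ^ 2 = M ^ 2 - e ^ 2 - γ ^ 2 := by ring
    rw [h3] at h2
    exact_mod_cast h2
  · have := factor_aux (q := 17) (by norm_num) (i := 4) (by norm_num) (c := 1) (N := N) hMe (Or.inl rfl) hpar
      (by rw [← hN']; push_cast; ring) (by norm_num)
    obtain ⟨γ, h1, h2⟩ := this
    refine ⟨γ, by exact_mod_cast h1, ?_⟩
    rw [one_mul] at h2
    exact_mod_cast h2

end Pool.Agent.H.MP_86855d_nt
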