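import Mathlib

/-!
# The set `S(E)` of the primes at which the rational points of an elliptic curve are dense
-/

namespace Pool.Agent.H.MP_86855d_nt

open WeierstrassCurve

/-- Homogeneous coordinates of a point of a Weierstrass curve over a field `K`:
`(0, 1, 0)` for the point at infinity and `(x, y, 1)` for the affine point `(x, y)`. -/
def homCoords {K : Type*} [Field K] (E : WeierstrassCurve K) : E.toAffine.Point → Fin 3 → K
  | .zero => ![0, 1, 0]
  | .some x y _ => ![x, y, 1]

theorem homCoords_ne_zero {K : Type*} [Field K] (E : WeierstrassCurve K) (P : E.toAffine.Point) :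
    homCoords E P ≠ 0 := by
  intro h
  cases P with
  | zero => simpa [homCoords] using congrFun h 1
  | some x y hxy => simpa [homCoords] using congrFun h 2

/-- The embedding of the set of `K`-points `E(K)` of a Weierstrass curve in `ℙ²(K)`. -/
def toPlane {K : Type*} [Field K] (E : WeierstrassCurve K) (P : E.toAffine.Point) :
    Projectivization K (Fin 3 → K) :=
  Projectivization.mk K (homCoords E P) (homCoords_ne_zero E P)

/-- The topology of `ℙ²(K)`: the quotient topology of the topology of `K³ ∖ {0}`. -/
@[reducible] def planeTopology (K : Type*) [NormedField K] : TopologicalSpace (Projectivization K (Fin 3 → K)) :=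
  TopologicalSpace.coinduced
    (fun v : {v : Fin 3 → K // v ≠ 0} => Projectivization.mk K v.1 v.2) inferInstance

/-- The topology of `E(K)`: the subspace topology from `ℙ²(K)`. -/
@[reducible] def pointTopology {K : Type*} [NormedField K] (E : WeierstrassCurve K) :
    TopologicalSpace E.toAffine.Point :=
  (planeTopology K).induced (toPlane E)

open scoped Classical in
/-- `E(ℚ)` is dense in `E(ℚ_p)`, with its `p`-adic topology. -/
def IsDenseAt (E : WeierstrassCurve ℚ) (p : ℕ) [Fact p.Prime] : Prop :=
  @Dense _ (pointTopology (E⁄ℚ_[p]))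
    (Set.range fun P : (E⁄ℚ).toAffine.Point => Affine.Point.baseChange ℚ ℚ_[p] P)

/-- The set `S(E)` of the primes `p` such that `E(ℚ)` is dense in `E(ℚ_p)`. -/
def densePrimes (E : WeierstrassCurve ℚ) : Set ℕ :=
  {p | ∃ hp : p.Prime, haveI : Fact p.Prime := ⟨hp⟩; IsDenseAt E p}

/-- Sanity check: the base change of `E` from `ℚ` to `ℚ` is `E`, so `(E⁄ℚ).toAffine.Point` is
the group `E(ℚ)` of rational points of `E`. -/
theorem baseChange_rat (E : WeierstrassCurve ℚ) : (E⁄ℚ) = E := rfl

end Pool.Agent.H.MP_86855d_nt
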