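import Mathlib

namespace Pool.Agent.H.MP_86855d_nt

open Polynomial

section padic
variable {p : ℕ} [hp : Fact p.Prime]

lemma norm_lt_one_of_toZMod {z : ℤ_[p]} (h : PadicInt.toZMod z = 0) : ‖z‖ < 1 := by
  have : z ∈ RingHom.ker (PadicInt.toZMod : ℤ_[p] →+* ZMod p) := h
  rw [PadicInt.ker_toZMod] at this
  rwa [IsLocalRing.mem_maximalIdeal, PadicInt.mem_nonunits] at this

lemma norm_eq_one_of_toZMod {z : ℤ_[p]} (h : PadicInt.toZMod z ≠ 0) : ‖z‖ = 1 := by
  by_contra hne
  have h1 : ‖z‖ < 1 := lt_of_le_of_ne (PadicInt.norm_le_one z) hne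
  apply h
  have : z ∈ RingHom.ker (PadicInt.toZMod : ℤ_[p] →+* ZMod p) := by
    rw [PadicInt.ker_toZMod, IsLocalRing.mem_maximalIdeal, PadicInt.mem_nonunits]
    exact h1
  exact this

lemma exists_lift (c : ZMod p) : ∃ a : ℤ_[p], PadicInt.toZMod a = c := by
  refine ⟨(c.val : ℤ_[p]), ?_⟩
  rw [map_natCast, ZMod.natCast_zmod_val]

/-- Hensel: simple root lifting. -/
lemma hensel_lift (F : ℤ_[p][X]) (c : ZMod p) (h0 : (F.map (PadicInt.toZMod)).eval c = 0)
    (h1 : (F.map (PadicInt.toZMod)).derivative.eval c ≠ 0) :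
    ∃ z : ℤ_[p], F.eval z = 0 ∧ PadicInt.toZMod z = c := by
  obtain ⟨a, ha⟩ := exists_lift c
  have e0 : PadicInt.toZMod (F.eval a) = 0 := by
    rw [← h0, ← ha, Polynomial.eval_map, Polynomial.eval₂_hom]
  have e1 : PadicInt.toZMod (F.derivative.eval a) ≠ 0 := by
    rw [Polynomial.derivative_map, Polynomial.eval_map, ← ha, Polynomial.eval₂_hom] at h1
    exact h1
  have n0 := norm_lt_one_of_toZMod e0
  have n1 := norm_eq_one_of_toZMod e1
  obtain ⟨z, hz, hza, -, -⟩ := hensels_lemma (F := F) (a := a) (by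
    simp only [Polynomial.coe_aeval_eq_eval]
    rw [n1]; simpa using n0)
  refine ⟨z, by simpa only [Polynomial.coe_aeval_eq_eval] using hz, ?_⟩
  simp only [Polynomial.coe_aeval_eq_eval] at hza
  rw [n1] at hza
  have : z - a ∈ RingHom.ker (PadicInt.toZMod : ℤ_[p] →+* ZMod p) := by
    rw [PadicInt.ker_toZMod, IsLocalRing.mem_maximalIdeal, PadicInt.mem_nonunits]
    exact hza
  rw [RingHom.mem_ker, map_sub, ha, sub_eq_zero] at this
  exact this

lemma isSquare_of_toZMod (hp2 : p ≠ 2) (z : ℤ_[p]) (c : ZMod p) (hc : c ≠ 0)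
    (h : PadicInt.toZMod z = c ^ 2) : ∃ w : ℤ_[p], w ^ 2 = z := by
  have h2 : (2 : ZMod p) ≠ 0 := by
    intro h2
    have : ((2 : ℕ) : ZMod p) = 0 := by exact_mod_cast h2
    rw [ZMod.natCast_eq_zero_iff] at this
    exact hp2 ((Nat.prime_dvd_prime_iff_eq hp.out Nat.prime_two).1 this)
  obtain ⟨w, hw, -⟩ := hensel_lift (X ^ 2 - C z) c (by simp [h]) (by
    have h3 : (((X ^ 2 - C z : ℤ_[p][X]).map (PadicInt.toZMod)).derivative).eval c = 2 * c := by
      simp only [Polynomial.map_sub, Polynomial.map_pow, Polynomial.map_X, Polynomial.map_C,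
        Polynomial.derivative_sub, Polynomial.derivative_X_pow, Polynomial.derivative_C]
      simp
      try ring
    rw [h3]
    exact mul_ne_zero h2 hc)
  refine ⟨w, ?_⟩
  simpa [sub_eq_zero] using hw

lemma padicInt_of_sq {w : ℚ_[p]} {z : ℤ_[p]} (h : w ^ 2 = (z : ℚ_[p])) : ∃ w' : ℤ_[p], (w' : ℚ_[p]) = w ∧ w' ^ 2 = z := by
  have h1 : ‖w‖ ≤ 1 := by
    have : ‖w‖ ^ 2 ≤ 1 := by
      rw [← norm_pow, h]
      exact PadicInt.norm_le_one z
    nlinarith [norm_nonneg w]
  refine ⟨⟨w, h1⟩, rfl, ?_⟩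
  apply Subtype.ext
  exact h

lemma not_isSquare_of_toZMod {z : ℤ_[p]} (h : ¬ IsSquare (PadicInt.toZMod z)) : ¬ IsSquare (z : ℚ_[p]) := by
  rintro ⟨w, hw⟩
  obtain ⟨w', -, hw'⟩ := padicInt_of_sq (w := w) (z := z) (by rw [hw]; ring)
  apply h
  refine ⟨PadicInt.toZMod w', ?_⟩
  rw [← hw', map_pow]; ring

lemma isClosed_isSquare : IsClosed {z : ℚ_[p] | IsSquare z} := by
  have h := (isClosedMap_pow ℚ_[p] 2).isClosed_range
  convert h using 1
  ext z
  simp only [Set.mem_ofPred_eq, Set.mem_range]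
  constructor
  · rintro ⟨w, rfl⟩; exact ⟨w, by ring⟩
  · rintro ⟨w, rfl⟩; exact ⟨w, by ring⟩

/-- an integer congruent to a nonzero square mod `p` is a square in `ℚ_[p]` -/
lemma int_isSquare (hp2 : p ≠ 2) {n γ : ℤ} (h1 : ¬ (p : ℤ) ∣ γ) (h2 : (p : ℤ) ∣ n - γ ^ 2) :
    IsSquare (n : ℚ_[p]) := by
  obtain ⟨w, hw⟩ := isSquare_of_toZMod hp2 (n : ℤ_[p]) (γ : ZMod p)
    (by rwa [Ne, ZMod.intCast_zmod_eq_zero_iff_dvd])
    (by
      rw [map_intCast]
      have : ((n - γ ^ 2 : ℤ) : ZMod p) = 0 := by rwa [ZMod.intCast_zmod_eq_zero_iff_dvd]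
      push_cast at this
      exact sub_eq_zero.1 this)
  refine ⟨w, ?_⟩
  have h3 : ((w ^ 2 : ℤ_[p]) : ℚ_[p]) = (((n : ℤ_[p])) : ℚ_[p]) := congrArg (fun z : ℤ_[p] => (z : ℚ_[p])) hw
  rw [PadicInt.coe_pow, PadicInt.coe_intCast] at h3
  rw [← h3]; ring

end padic

section finite
variable {p : ℕ} [hp : Fact p.Prime]

lemma exists_nonsquare_point (hp2 : p ≠ 2) (h13 : p ≠ 13) (h17 : p ≠ 17) :
    ∃ x : ZMod p, ¬ IsSquare x ∧
      ((x ^ 2 - 15 * x + 1 = 0 ∧ 2 * x - 15 ≠ 0) ∨ ∃ c : ZMod p, c ≠ 0 ∧ x ^ 3 - 15 * x ^ 2 + x = c ^ 2) := by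
  classical
  have hchar : ringChar (ZMod p) ≠ 2 := by rw [ZMod.ringChar_zmod_n]; exact hp2
  have h221 : (221 : ZMod p) ≠ 0 := by
    intro h
    have h' : ((221 : ℕ) : ZMod p) = 0 := by exact_mod_cast h
    rw [ZMod.natCast_eq_zero_iff] at h'
    have : p ∣ 13 * 17 := by norm_num; exact h'
    rcases (Nat.Prime.dvd_mul hp.out).1 this with h | h
    · exact h13 ((Nat.prime_dvd_prime_iff_eq hp.out (by norm_num)).1 h)
    · exact h17 ((Nat.prime_dvd_prime_iff_eq hp.out (by norm_num)).1 h)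
  have h2 : (2 : ZMod p) ≠ 0 := by
    intro h2
    have : ((2 : ℕ) : ZMod p) = 0 := by exact_mod_cast h2
    rw [ZMod.natCast_eq_zero_iff] at this
    exact hp2 ((Nat.prime_dvd_prime_iff_eq hp.out Nat.prime_two).1 this)
  -- number of points of the conic
  set g : ZMod p → ZMod p := fun x => x ^ 2 - 15 * x + 1 with hg
  have hconic : (Finset.univ.filter (fun P : ZMod p × ZMod p => P.2 ^ 2 = g P.1)).card ≤ p - 1 := by
    have hcard : (Finset.univ.filter (fun u : ZMod p => u ≠ 0)).card = p - 1 := by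
      rw [Finset.filter_ne']
      rw [Finset.card_erase_of_mem (Finset.mem_univ _), Finset.card_univ, ZMod.card]
    rw [← hcard]
    apply Finset.card_le_card_of_injOn (fun P => 2 * P.2 + (2 * P.1 - 15))
    · rintro ⟨x, y⟩ h
      simp only [Finset.coe_filter, Finset.mem_univ, true_and, Set.mem_ofPred_eq] at h ⊢
      intro h0
      apply h221
      have : (2 * y + (2 * x - 15)) * (2 * y - (2 * x - 15)) = -221 := by
        simp only [hg] at h
        linear_combination 4 * h
      rw [h0, zero_mul] at this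
      linear_combination this
    · rintro ⟨x, y⟩ h ⟨x', y'⟩ h' he
      simp only [Finset.coe_filter, Finset.mem_univ, true_and, Set.mem_ofPred_eq, hg] at h h' he
      have e1 : (2 * y + (2 * x - 15)) * (2 * y - (2 * x - 15)) = -221 := by
        linear_combination 4 * h
      have e2 : (2 * y' + (2 * x' - 15)) * (2 * y' - (2 * x' - 15)) = -221 := by
        linear_combination 4 * h'
      have hne : (2 * y + (2 * x - 15)) ≠ 0 := by
        intro h0
        rw [h0, zero_mul] at e1
        apply h221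
        linear_combination e1
      have e3 : (2 * y - (2 * x - 15)) = (2 * y' - (2 * x' - 15)) := by
        apply mul_left_cancel₀ hne
        rw [e1, he, e2]
      have hy : y = y' := by
        have : (2 * 2) * y = (2 * 2) * y' := by linear_combination he + e3
        exact mul_left_cancel₀ (mul_ne_zero h2 h2) this
      have hx : x = x' := by
        have : (2 * 2) * x = (2 * 2) * x' := by linear_combination he - e3
        exact mul_left_cancel₀ (mul_ne_zero h2 h2) this
      rw [hx, hy]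
  have hsum : ∑ x : ZMod p, (quadraticChar (ZMod p) (g x) + 1) ≤ (p : ℤ) - 1 := by
    have h1 : ∑ x : ZMod p, (quadraticChar (ZMod p) (g x) + 1) =
        ((Finset.univ.filter (fun P : ZMod p × ZMod p => P.2 ^ 2 = g P.1)).card : ℤ) := by
      have h3 : ∀ x : ZMod p, quadraticChar (ZMod p) (g x) + 1 = ((Finset.univ.filter (fun y : ZMod p => y ^ 2 = g x)).card : ℤ) := by
        intro x
        rw [← quadraticChar_card_sqrts hchar (g x)]
        congr 1
        simp
      simp only [h3]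
      rw [← Nat.cast_sum]
      congr 1
      rw [Finset.card_filter, Fintype.sum_prod_type]
      apply Finset.sum_congr rfl
      intro x _
      rw [Finset.card_filter]
    rw [h1]
    have hp1 : 1 ≤ p := hp.out.one_lt.le
    have : (((Finset.univ.filter (fun P : ZMod p × ZMod p => P.2 ^ 2 = g P.1)).card : ℕ) : ℤ) ≤ ((p - 1 : ℕ) : ℤ) := by
      exact_mod_cast hconic
    push_cast [Nat.cast_sub hp1] at this
    exact this
  have hsum2 : ∑ x : ZMod p, (quadraticChar (ZMod p) (g x) + quadraticChar (ZMod p) x) ≤ -1 := by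
    rw [Finset.sum_add_distrib] at hsum ⊢
    rw [quadraticChar_sum_zero hchar]
    simp only [Finset.sum_const, Finset.card_univ, ZMod.card] at hsum
    simp only [nsmul_eq_mul, mul_one] at hsum
    linarith
  by_contra hcon
  push Not at hcon
  have hterm : ∀ x : ZMod p, x ≠ 0 → 0 ≤ quadraticChar (ZMod p) (g x) + quadraticChar (ZMod p) x := by
    intro x hx
    have hge : -1 ≤ quadraticChar (ZMod p) (g x) := by
      by_cases h0 : g x = 0
      · rw [h0]; simp
      · rcases quadraticChar_dichotomy h0 with h | h <;> rw [h] <;> norm_num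
    rcases quadraticChar_dichotomy hx with h | h
    · rw [h]; linarith
    · rw [h]
      have hns : ¬ IsSquare x := by
        rwa [← quadraticChar_neg_one_iff_not_isSquare]
      obtain ⟨hA, hB⟩ := hcon x hns
      have hgx0 : g x ≠ 0 := by
        intro h0
        have h5 := hA h0
        apply h221
        have : (2 * x - 15) * (2 * x - 15) = 4 * g x + 221 := by simp only [hg]; ring
        rw [h0, h5] at this
        linear_combination -this
      have : quadraticChar (ZMod p) (g x) = 1 := by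
        rcases quadraticChar_dichotomy hgx0 with h' | h'
        · exact h'
        · exfalso
          have hprod : quadraticChar (ZMod p) (x * g x) = 1 := by
            rw [map_mul, h, h']; norm_num
          have hxg : x * g x ≠ 0 := mul_ne_zero hx hgx0
          rw [quadraticChar_one_iff_isSquare hxg] at hprod
          obtain ⟨c, hc⟩ := hprod
          have hc0 : c ≠ 0 := by
            rintro rfl
            apply hxg; rw [hc]; ring
          apply hB c hc0
          rw [pow_two c, ← hc]; simp only [hg]; ring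
      rw [this]; norm_num
  have hzero : quadraticChar (ZMod p) (g 0) + quadraticChar (ZMod p) 0 = 1 := by
    simp [hg]
  have : 1 ≤ ∑ x : ZMod p, (quadraticChar (ZMod p) (g x) + quadraticChar (ZMod p) x) := by
    rw [← Finset.add_sum_erase _ _ (Finset.mem_univ (0 : ZMod p)), hzero]
    have : 0 ≤ ∑ x ∈ Finset.univ.erase (0 : ZMod p), (quadraticChar (ZMod p) (g x) + quadraticChar (ZMod p) x) := by
      apply Finset.sum_nonneg
      intro x hx
      exact hterm x (Finset.ne_of_mem_erase hx)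
    linarith
  linarith

end finite

section points
variable {p : ℕ} [hp : Fact p.Prime]

lemma good_point (hp2 : p ≠ 2) (h13 : p ≠ 13) (h17 : p ≠ 17) :
    ∃ x y : ℚ_[p], y ^ 2 = x ^ 3 - 15 * x ^ 2 + x ∧ ¬ IsSquare x := by
  obtain ⟨x, hx, h⟩ := exists_nonsquare_point (p := p) hp2 h13 h17
  rcases h with ⟨h0, h1⟩ | ⟨c, hc, h⟩
  · obtain ⟨z, hz, hzx⟩ := hensel_lift (X ^ 2 - C 15 * X + C 1 : ℤ_[p][X]) x
      (by simp [map_ofNat]; linear_combination h0) (by simp [map_ofNat]; intro h; apply h1; linear_combination h)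
    refine ⟨z, 0, ?_, ?_⟩
    · have : z ^ 2 - 15 * z + 1 = 0 := by simpa using hz
      have h2 : ((z : ℤ_[p]) : ℚ_[p]) ^ 2 - 15 * z + 1 = 0 := by exact_mod_cast congrArg (fun z : ℤ_[p] => (z : ℚ_[p])) this
      linear_combination -(z : ℚ_[p]) * h2
    · apply not_isSquare_of_toZMod
      rwa [hzx]
  · obtain ⟨z, hz⟩ := exists_lift x
    obtain ⟨w, hw⟩ := isSquare_of_toZMod hp2 (z ^ 3 - 15 * z ^ 2 + z) c hc (by
      rw [← h, ← hz]; simp [map_ofNat])
    refine ⟨z, w, ?_, ?_⟩
    · exact_mod_cast congrArg (fun z : ℤ_[p] => (z : ℚ_[p])) hw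
    · apply not_isSquare_of_toZMod
      rwa [hz]

end points

end Pool.Agent.H.MP_86855d_nt
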