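import Mathlib

namespace Pool.Agent.H.MP_86855d_nt

open WeierstrassCurve

/-- the curve `y² = x³ - 15x² + x` -/
def curve : WeierstrassCurve ℚ := ⟨0, -15, 0, 1, 0⟩

section
variable {K : Type*} [Field K] [Algebra ℚ K]

lemma ca1 : (curve⁄K).toAffine.a₁ = 0 := by
  change algebraMap ℚ K 0 = 0; simp
lemma ca2 : (curve⁄K).toAffine.a₂ = -15 := by
  change algebraMap ℚ K (-15) = -15; simp
lemma ca3 : (curve⁄K).toAffine.a₃ = 0 := by
  change algebraMap ℚ K 0 = 0; simp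
lemma ca4 : (curve⁄K).toAffine.a₄ = 1 := by
  change algebraMap ℚ K 1 = 1; simp
lemma ca6 : (curve⁄K).toAffine.a₆ = 0 := by
  change algebraMap ℚ K 0 = 0; simp

lemma curve_equation (x y : K) :
    (curve⁄K).toAffine.Equation x y ↔ y ^ 2 = x ^ 3 - 15 * x ^ 2 + x := by
  rw [Affine.equation_iff]
  rw [ca1, ca2, ca3, ca4, ca6]
  constructor
  · intro h; linear_combination h
  · intro h; linear_combination h

lemma curve_delta : curve.Δ = 16 * 221 := by
  simp only [curve, WeierstrassCurve.Δ, WeierstrassCurve.b₂, WeierstrassCurve.b₄, WeierstrassCurve.b₆,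
    WeierstrassCurve.b₈]
  norm_num

instance curve_isElliptic : curve.IsElliptic := by
  rw [isElliptic_iff, curve_delta]
  norm_num

instance : (curve⁄K).toAffine.IsElliptic := inferInstanceAs (curve.map (algebraMap ℚ K)).IsElliptic

lemma curve_nonsingular {x y : K} (h : y ^ 2 = x ^ 3 - 15 * x ^ 2 + x) :
    (curve⁄K).toAffine.Nonsingular x y := by
  rw [← Affine.equation_iff_nonsingular, curve_equation]
  exact h

end

lemma norm_two_aux {x : ℚ_[2]} (hx : 1 < ‖x‖) : ‖x ^ 2 - 15 * x + 1‖ = ‖x‖ ^ 2 := by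
  have h1 : ‖x‖ < ‖x ^ 2‖ := by
    rw [norm_pow]; nlinarith
  have h15 : ‖(-15 * x : ℚ_[2]) + 1‖ ≤ ‖x‖ := by
    refine (Padic.nonarchimedean _ _).trans ?_
    apply max_le
    · rw [norm_mul]
      have : ‖(-15 : ℚ_[2])‖ ≤ 1 := by
        have := Padic.norm_int_le_one (p := 2) (-15)
        exact_mod_cast this
      nlinarith [norm_nonneg x]
    · rw [norm_one]; exact hx.le
  have h2 : x ^ 2 - 15 * x + 1 = x ^ 2 + (-15 * x + 1) := by ring
  rw [h2, Padic.add_eq_max_of_ne (ne_of_gt (lt_of_le_of_lt h15 h1)), max_eq_left (h15.trans h1.le), norm_pow]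

lemma norm_two_aux' {x : ℚ_[2]} (hx : 1 < ‖x‖) : ‖x ^ 2 - 1‖ = ‖x‖ ^ 2 := by
  have h1 : 1 < ‖x ^ 2‖ := by
    rw [norm_pow]; nlinarith
  have h2 : x ^ 2 - 1 = x ^ 2 + (-1) := by ring
  rw [h2, Padic.add_eq_max_of_ne, max_eq_left, norm_pow]
  · rw [norm_neg, norm_one]; exact h1.le
  · rw [norm_neg, norm_one]; exact h1.ne'

lemma double (x y : ℚ) (h : (curve⁄ℚ).toAffine.Nonsingular x y) (hx : 1 < ‖(x : ℚ_[2])‖) :
    ∃ (x' y' : ℚ) (h' : (curve⁄ℚ).toAffine.Nonsingular x' y'),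
      Affine.Point.some x y h + Affine.Point.some x y h = Affine.Point.some x' y' h' ∧
        ‖(x' : ℚ_[2])‖ = 4 * ‖(x : ℚ_[2])‖ := by
  have heq : y ^ 2 = x ^ 3 - 15 * x ^ 2 + x := (curve_equation x y).1 h.1
  have hnorm : ‖(y : ℚ_[2])‖ ^ 2 = ‖(x : ℚ_[2])‖ ^ 3 := by
    have h1 : (y : ℚ_[2]) ^ 2 = (x : ℚ_[2]) * ((x : ℚ_[2]) ^ 2 - 15 * x + 1) := by
      have : ((y ^ 2 : ℚ) : ℚ_[2]) = ((x ^ 3 - 15 * x ^ 2 + x : ℚ) : ℚ_[2]) := by rw [heq]
      push_cast at this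
      rw [this]; ring
    rw [← norm_pow, h1, norm_mul, norm_two_aux hx]; ring
  have hy0 : y ≠ 0 := by
    rintro rfl
    rw [Rat.cast_zero, norm_zero] at hnorm
    have : 0 < ‖(x : ℚ_[2])‖ ^ 3 := by positivity
    rw [← hnorm] at this
    norm_num at this
  have hneg : y ≠ (curve⁄ℚ).toAffine.negY x y := by
    intro h2
    rw [Affine.negY, ca1, ca3] at h2
    apply hy0
    linarith
  have hsum := Affine.Point.add_self_of_Y_ne (W := (curve⁄ℚ).toAffine) (h₁ := h) hneg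
  refine ⟨_, _, _, hsum, ?_⟩
  have hslope : (curve⁄ℚ).toAffine.slope x x y y = (3 * x ^ 2 - 30 * x + 1) / (2 * y) := by
    rw [Affine.slope_of_Y_ne rfl hneg]
    rw [Affine.negY, ca1, ca2, ca3, ca4]
    congr 1 <;> ring
  have hX : (curve⁄ℚ).toAffine.addX x x ((curve⁄ℚ).toAffine.slope x x y y) = (x ^ 2 - 1) ^ 2 / (4 * y ^ 2) := by
    rw [hslope]
    rw [Affine.addX, ca1, ca2]
    field_simp
    rw [heq]
    ring
  rw [hX]
  push_cast
  rw [norm_div, norm_pow, norm_two_aux' hx, norm_mul, norm_pow, hnorm]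
  have h4 : ‖(4 : ℚ_[2])‖ = 1 / 4 := by
    have : (4 : ℚ_[2]) = ((2 : ℕ) : ℚ_[2]) ^ 2 := by norm_num
    rw [this, norm_pow, Padic.norm_p]
    norm_num
  rw [h4]
  have : ‖(x : ℚ_[2])‖ ≠ 0 := by
    intro h0; rw [h0] at hx; linarith
  field_simp

lemma iterate_double (n : ℕ) (x y : ℚ) (h : (curve⁄ℚ).toAffine.Nonsingular x y) (hx : 1 < ‖(x : ℚ_[2])‖) :
    ∃ (x' y' : ℚ) (h' : (curve⁄ℚ).toAffine.Nonsingular x' y'),
      (2 ^ n) • Affine.Point.some x y h = Affine.Point.some x' y' h' ∧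
        ‖(x' : ℚ_[2])‖ = 4 ^ n * ‖(x : ℚ_[2])‖ := by
  induction n with
  | zero => exact ⟨x, y, h, by simp, by simp⟩
  | succ n ih =>
    obtain ⟨x', y', h', h1, h2⟩ := ih
    have hx' : 1 < ‖(x' : ℚ_[2])‖ := by
      rw [h2]
      have : (1 : ℝ) ≤ 4 ^ n := one_le_pow₀ (by norm_num)
      nlinarith [norm_nonneg (x : ℚ_[2])]
    obtain ⟨x'', y'', h'', h3, h4⟩ := double x' y' h' hx'
    refine ⟨x'', y'', h'', ?_, ?_⟩
    · rw [pow_succ, mul_comm, mul_smul, two_nsmul, h1, h3]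
    · rw [h4, h2, pow_succ]; ring

lemma basePoint_eq : ((185345 / 13824 : ℚ)) ^ 2 = (9025 / 576 : ℚ) ^ 3 - 15 * (9025 / 576 : ℚ) ^ 2 + 9025 / 576 := by
  norm_num

/-- the point `(9025/576, 185345/13824)` -/
noncomputable def basePoint : (curve⁄ℚ).toAffine.Point :=
  .some (9025 / 576) (185345 / 13824) (curve_nonsingular basePoint_eq)

lemma norm_base : 1 < ‖((9025 / 576 : ℚ) : ℚ_[2])‖ := by
  have h1 : ‖(9025 : ℚ_[2])‖ = 1 := by
    have := (Padic.norm_natCast_eq_one_iff (p := 2) (n := 9025)).2 (by norm_num)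
    exact_mod_cast this
  have h2 : ‖(576 : ℚ_[2])‖ < 1 := by
    have := (Padic.norm_natCast_lt_one_iff (p := 2) (n := 576)).2 (by norm_num)
    exact_mod_cast this
  have h3 : 0 < ‖(576 : ℚ_[2])‖ := by
    rw [norm_pos_iff]; norm_num
  push_cast
  rw [norm_div, h1]
  exact (one_lt_div h3).2 h2

lemma basePoint_infinite_order : ¬ IsOfFinAddOrder basePoint := by
  intro hfin
  have hfin' : Finite (AddSubmonoid.multiples basePoint) :=
    (IsOfFinAddOrder.finite_multiples hfin).to_subtype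
  have hinj : Function.Injective (fun n : ℕ => (⟨(2 ^ n) • basePoint,
      (AddSubmonoid.mem_multiples_iff _ _).2 ⟨2 ^ n, rfl⟩⟩ : AddSubmonoid.multiples basePoint)) := by
    intro m n hmn'
    have hmn : (2 ^ m) • basePoint = (2 ^ n) • basePoint := congrArg Subtype.val hmn'
    obtain ⟨x1, y1, h1, e1, n1⟩ := iterate_double m _ _ (curve_nonsingular basePoint_eq) norm_base
    obtain ⟨x2, y2, h2, e2, n2⟩ := iterate_double n _ _ (curve_nonsingular basePoint_eq) norm_base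
    rw [basePoint, e1, e2] at hmn
    have hx : x1 = x2 := by
      simpa using (Affine.Point.some.inj hmn).1
    rw [hx, n2] at n1
    have hb : ‖((9025 / 576 : ℚ) : ℚ_[2])‖ ≠ 0 := by
      intro h0; have := norm_base; rw [h0] at this; linarith
    have h4 : (4 : ℝ) ^ n = 4 ^ m := mul_right_cancel₀ hb n1
    have := pow_right_injective₀ (a := (4 : ℝ)) (by norm_num) (by norm_num) h4
    exact this.symm
  exact not_injective_infinite_finite _ hinj

lemma rank_pos : 0 < Module.rank ℤ (curve⁄ℚ).toAffine.Point := by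
  rw [pos_iff_ne_zero]
  intro h0
  rw [rank_eq_zero_iff] at h0
  obtain ⟨a, ha, hb⟩ := h0 basePoint
  apply basePoint_infinite_order
  rw [isOfFinAddOrder_iff_zsmul_eq_zero]
  exact ⟨a, ha, hb⟩

end Pool.Agent.H.MP_86855d_nt
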