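import Pool.Agent.H.MP_86855d_nt.Defs
import Pool.Agent.H.MP_86855d_nt.Arith
import Pool.Agent.H.MP_86855d_nt.Local
import Pool.Agent.H.MP_86855d_nt.Order

/-!
# The rational points of `y² = x³ - 15x² + x` are `p`-adically dense for no prime `p`

* Every rational point `(x, y)` of `E` has `x = (M/e)²` with `M⁴ - 15M²e² + e⁴ = N²`
  (so `x` is a square), `x - 1` is a square in `ℚ₁₃` and `x + 1` is a square in `ℚ₁₇`.
* For each prime `p ≠ 13, 17` there is a point of `E(ℚ_p)` with `x` not a square, for `p = 13` there is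
  one with `x - 1` not a square, and for `p = 17` there is one with `x + 1` not a square.
* The point with `x = (95/24)²` has infinite order, since doubling multiplies the `2`-adic absolute
  value of the `x`-coordinate by `4` as soon as it is greater than `1`.
-/

namespace Pool.Agent.H.MP_86855d_nt

open WeierstrassCurve


section topology
variable {p : ℕ} [hp : Fact p.Prime]

/-- an open subset of the plane: `(X - cZ)Z` is not a square -/
def openSet (c : ℚ_[p]) : Set (Projectivization ℚ_[p] (Fin 3 → ℚ_[p])) :=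
  {q | ¬ IsSquare ((q.rep 0 - c * q.rep 2) * q.rep 2)}

theorem mem_openSet (c : ℚ_[p]) (v : Fin 3 → ℚ_[p]) (hv : v ≠ 0) :
    Projectivization.mk ℚ_[p] v hv ∈ openSet c ↔ ¬ IsSquare ((v 0 - c * v 2) * v 2) := by
  obtain ⟨a, ha⟩ := Projectivization.exists_smul_eq_mk_rep ℚ_[p] v hv
  have h0 : (Projectivization.mk ℚ_[p] v hv).rep 0 = a * v 0 := by
    rw [← ha]; rfl
  have h2 : (Projectivization.mk ℚ_[p] v hv).rep 2 = a * v 2 := by
    rw [← ha]; rfl
  rw [openSet, Set.mem_ofPred_eq, h0, h2, not_iff_not]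
  have ha0 : (a : ℚ_[p]) ≠ 0 := a.ne_zero
  constructor
  · rintro ⟨w, hw⟩
    refine ⟨w / a, ?_⟩
    field_simp
    linear_combination hw
  · rintro ⟨w, hw⟩
    refine ⟨w * a, ?_⟩
    linear_combination (a : ℚ_[p]) ^ 2 * hw

theorem isOpen_openSet (c : ℚ_[p]) : @IsOpen _ (planeTopology ℚ_[p]) (openSet c) := by
  rw [planeTopology, isOpen_coinduced]
  have : (fun v : {v : Fin 3 → ℚ_[p] // v ≠ 0} => Projectivization.mk ℚ_[p] v.1 v.2) ⁻¹' (openSet c) =
      (fun v : {v : Fin 3 → ℚ_[p] // v ≠ 0} => (v.1 0 - c * v.1 2) * v.1 2) ⁻¹' {z | IsSquare z}ᶜ := by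
    ext v
    rw [Set.mem_preimage, mem_openSet]
    rfl
  rw [this]
  refine isClosed_isSquare.isOpen_compl.preimage ?_
  have h0 : Continuous (fun v : {v : Fin 3 → ℚ_[p] // v ≠ 0} => v.1 0) :=
    (continuous_apply 0).comp continuous_subtype_val
  have h2 : Continuous (fun v : {v : Fin 3 → ℚ_[p] // v ≠ 0} => v.1 2) :=
    (continuous_apply 2).comp continuous_subtype_val
  exact (h0.sub (continuous_const.mul h2)).mul h2

theorem not_denseAt (c : ℚ_[p])
    (h : ∀ x y : ℚ, y ^ 2 = x ^ 3 - 15 * x ^ 2 + x → IsSquare ((x : ℚ_[p]) - c))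
    (x y : ℚ_[p]) (hxy : y ^ 2 = x ^ 3 - 15 * x ^ 2 + x) (hns : ¬ IsSquare (x - c)) :
    ¬ IsDenseAt curve p := by
  intro hd
  let t := pointTopology (curve⁄ℚ_[p])
  have hU : @IsOpen _ t (toPlane (curve⁄ℚ_[p]) ⁻¹' (openSet c)) :=
    @isOpen_induced _ _ (planeTopology ℚ_[p]) _ _ (isOpen_openSet c)
  have hne : (toPlane (curve⁄ℚ_[p]) ⁻¹' (openSet c)).Nonempty := by
    refine ⟨.some x y (curve_nonsingular hxy), ?_⟩
    rw [Set.mem_preimage, toPlane, mem_openSet]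
    simpa [homCoords] using hns
  obtain ⟨Q, hQ, P, hPQ⟩ := @Dense.inter_open_nonempty _ t _ hd _ hU hne
  subst hPQ
  rw [Set.mem_preimage, toPlane, mem_openSet] at hQ
  apply hQ
  match P with
  | .zero =>
    change IsSquare (((![0, 1, 0] : Fin 3 → ℚ_[p]) 0 - c * (![0, 1, 0] : Fin 3 → ℚ_[p]) 2) *
      (![0, 1, 0] : Fin 3 → ℚ_[p]) 2)
    simp
  | .some x₀ y₀ h₀ =>
    change IsSquare (((![algebraMap ℚ ℚ_[p] x₀, algebraMap ℚ ℚ_[p] y₀, 1] : Fin 3 → ℚ_[p]) 0 - c *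
      (![algebraMap ℚ ℚ_[p] x₀, algebraMap ℚ ℚ_[p] y₀, 1] : Fin 3 → ℚ_[p]) 2) *
      (![algebraMap ℚ ℚ_[p] x₀, algebraMap ℚ ℚ_[p] y₀, 1] : Fin 3 → ℚ_[p]) 2)
    have := h x₀ y₀ ((curve_equation x₀ y₀).1 h₀.1)
    simpa using this

end topology

theorem not_denseAt_two : ¬ IsDenseAt curve 2 := by
  obtain ⟨w, hw⟩ : ∃ w : ℤ_[2], w ^ 2 = 505 := by
    have hF : ‖(Polynomial.aeval (1 : ℤ_[2])) (Polynomial.X ^ 2 - Polynomial.C (505 : ℤ_[2]))‖ <
        ‖(Polynomial.aeval (1 : ℤ_[2])) (Polynomial.derivative (Polynomial.X ^ 2 - Polynomial.C (505 : ℤ_[2])))‖ ^ 2 := by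
      have h1 : (Polynomial.aeval (1 : ℤ_[2])) (Polynomial.X ^ 2 - Polynomial.C (505 : ℤ_[2])) = -((2 : ℕ) : ℤ_[2]) ^ 3 * 63 := by
        simp; norm_num
      have h2 : (Polynomial.aeval (1 : ℤ_[2])) (Polynomial.derivative (Polynomial.X ^ 2 - Polynomial.C (505 : ℤ_[2]))) = ((2 : ℕ) : ℤ_[2]) := by
        simp; norm_num
      rw [h1, h2, norm_mul, norm_neg, norm_pow, PadicInt.norm_p]
      have h3 : ‖(63 : ℤ_[2])‖ ≤ 1 := PadicInt.norm_le_one _
      norm_num
      linarith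
    obtain ⟨z, hz, -⟩ := hensels_lemma hF
    refine ⟨z, ?_⟩
    simpa [sub_eq_zero] using hz
  have hw' : (w : ℚ_[2]) ^ 2 = 505 := by
    have := congrArg (fun z : ℤ_[2] => (z : ℚ_[2])) hw
    exact_mod_cast this
  refine not_denseAt (p := 2) 0 ?_ 20 (2 * w) ?_ ?_
  · intro x y hxy
    obtain ⟨M, e, he, hx, -, -⟩ := arith hxy
    refine ⟨(M / e : ℚ), ?_⟩
    rw [hx]; push_cast; ring
  · linear_combination 4 * hw'
  · rintro ⟨u, hu⟩
    rw [sub_zero] at hu
    obtain ⟨z, -, hz⟩ := padicInt_of_sq (p := 2) (w := u / 2) (z := 5) (by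
      have h5 : (((5 : ℤ_[2])) : ℚ_[2]) = 5 := by norm_cast
      rw [h5]
      linear_combination -hu / 4)
    have h8 := congrArg (PadicInt.toZModPow 3 : ℤ_[2] →+* ZMod (2 ^ 3)) hz
    rw [map_pow, map_ofNat] at h8
    generalize (PadicInt.toZModPow 3 : ℤ_[2] →+* ZMod (2 ^ 3)) z = t at h8
    revert t
    decide

theorem aux13a : (2 : ZMod 13) ≠ 0 := by decide
theorem aux13b : (-477 : ZMod 13) = 2 ^ 2 := by decide
theorem aux13c : ¬ IsSquare (8 : ZMod 13) := by decide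
theorem aux17a : (7 : ZMod 17) ≠ 0 := by decide
theorem aux17b : (-172 : ZMod 17) = 7 ^ 2 := by decide
theorem aux17c : ¬ IsSquare (5 : ZMod 17) := by decide

theorem not_denseAt_thirteen : haveI : Fact (Nat.Prime 13) := ⟨by norm_num⟩; ¬ IsDenseAt curve 13 := by
  have : Fact (Nat.Prime 13) := ⟨by norm_num⟩
  obtain ⟨w, hw⟩ := isSquare_of_toZMod (p := 13) (by norm_num) (-477 : ℤ_[13]) 2 aux13a (by
    rw [map_neg, map_ofNat]; exact aux13b)
  have hw' : (w : ℚ_[13]) ^ 2 = -477 := by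
    have := congrArg (fun z : ℤ_[13] => (z : ℚ_[13])) hw
    exact_mod_cast this
  refine not_denseAt (p := 13) 1 ?_ 9 w ?_ ?_
  · intro x y hxy
    obtain ⟨M, e, he, hx, ⟨γ, h1, h2⟩, -⟩ := arith hxy
    have he' : (e : ℚ_[13]) ≠ 0 := by exact_mod_cast he
    obtain ⟨r, hr⟩ := int_isSquare (p := 13) (by norm_num) (n := M ^ 2 - e ^ 2) (by exact_mod_cast h1) (by exact_mod_cast h2)
    push_cast at hr
    refine ⟨r / e, ?_⟩
    rw [hx]; push_cast
    field_simp
    linear_combination hr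
  · linear_combination hw'
  · have h8 : ((9 : ℚ_[13]) - 1) = ((8 : ℤ_[13]) : ℚ_[13]) := by norm_cast
    rw [h8]
    apply not_isSquare_of_toZMod
    rw [map_ofNat]
    exact aux13c

theorem not_denseAt_seventeen : haveI : Fact (Nat.Prime 17) := ⟨by norm_num⟩; ¬ IsDenseAt curve 17 := by
  have : Fact (Nat.Prime 17) := ⟨by norm_num⟩
  obtain ⟨w, hw⟩ := isSquare_of_toZMod (p := 17) (by norm_num) (-172 : ℤ_[17]) 7 aux17a (by
    rw [map_neg, map_ofNat]; exact aux17b)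
  have hw' : (w : ℚ_[17]) ^ 2 = -172 := by
    have := congrArg (fun z : ℤ_[17] => (z : ℚ_[17])) hw
    exact_mod_cast this
  refine not_denseAt (p := 17) (-1) ?_ 4 w ?_ ?_
  · intro x y hxy
    obtain ⟨M, e, he, hx, -, ⟨γ, h1, h2⟩⟩ := arith hxy
    have he' : (e : ℚ_[17]) ≠ 0 := by exact_mod_cast he
    obtain ⟨r, hr⟩ := int_isSquare (p := 17) (by norm_num) (n := M ^ 2 + e ^ 2) (by exact_mod_cast h1) (by exact_mod_cast h2)
    push_cast at hr
    refine ⟨r / e, ?_⟩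
    rw [hx]; push_cast
    field_simp
    linear_combination hr
  · linear_combination hw'
  · have h8 : ((4 : ℚ_[17]) - -1) = ((5 : ℤ_[17]) : ℚ_[17]) := by norm_num; norm_cast
    rw [h8]
    apply not_isSquare_of_toZMod
    rw [map_ofNat]
    exact aux17c

theorem densePrimes_curve : densePrimes curve = ∅ := by
  rw [Set.eq_empty_iff_forall_notMem]
  rintro p ⟨hp, hd⟩
  have : Fact p.Prime := ⟨hp⟩
  by_cases h2 : p = 2
  · subst h2; exact not_denseAt_two hd
  by_cases h13 : p = 13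
  · subst h13; exact not_denseAt_thirteen hd
  by_cases h17 : p = 17
  · subst h17; exact not_denseAt_seventeen hd
  obtain ⟨x, y, hxy, hns⟩ := good_point (p := p) h2 h13 h17
  refine not_denseAt (p := p) 0 ?_ x y hxy (by rwa [sub_zero]) hd
  intro x y hxy
  obtain ⟨M, e, he, hx, -, -⟩ := arith hxy
  refine ⟨(M / e : ℚ), ?_⟩
  rw [hx]; push_cast; ring

end Pool.Agent.H.MP_86855d_nt
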